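import Pool.Agent.Helper76.RD.Goals3

/-!
# Packet RF-COQ: one datum for at most `p` pairs
-/

namespace Pool.Agent.Helper30.RD

open NumberField Polynomial Module IsDedekindDomain TensorProduct Pool.Agent.Helper51.SigLeo
open Pool.Agent.Helper51.RP Pool.Agent.Helper42.RD Pool.Agent.Helper76.RD

theorem d_coq (h1 : Pool.Agent.Helper76.RD.D_DSQ) (h2 : Pool.Agent.Helper76.RD.D_FIR)
    (h3 : Pool.Agent.Helper42.RD.D_SLG) : Pool.Agent.Helper76.RD.D_COQ := by
  intro p _ k _ _ _ _ hne L K M _ _ _ _ _ _ _ m δ hδ hm n
  classical
  induction n with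
  | zero =>
    intro Q U _ _
    refine ⟨∅, fun _ => 1, ?_, fun j => j.elim0⟩
    exact ⟨Set.finite_empty, fun w hw => absurd hw (Set.notMem_empty w),
      fun w hw => absurd hw (Set.notMem_empty w), fun w hw => absurd hw (Set.notMem_empty w),
      fun w hw => absurd hw (Set.notMem_empty w), fun w hw => absurd hw (Set.notMem_empty w),
      fun w hw => absurd hw (Set.notMem_empty w)⟩
  | succ n ihn =>
    intro Q U hnp hQ
    obtain ⟨R₀, al₀, hR₀, hs₀⟩ := ihn (fun j => Q j.castSucc) (fun j => U j.castSucc)
      (by omega) (fun j => hQ _)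
    obtain ⟨P, hP⟩ : ∃ P, P = Q (Fin.last n) := ⟨_, rfl⟩
    obtain ⟨T, hT⟩ : ∃ T, T = U (Fin.last n) := ⟨_, rfl⟩
    have hPT : PairOK p m δ P T := by
      rw [hP, hT]
      exact hQ _
    by_contra hcon
    push Not at hcon
    obtain ⟨N, hN⟩ := h2 p M R₀ hR₀.fin
    have key : ∀ j : ℕ, ∃ (R : Set (HeightOneSpectrum (𝓞 M)))
        (al : HeightOneSpectrum (𝓞 M) → K), IsDat p R al ∧
        (∀ (i : Fin n) (x : Mˣ), SelD L (above (U i.castSucc)) (Q i.castSucc) δ R al x →
          Pw p x) ∧
        (∀ x : Mˣ, SelD L (above T) P δ R al x →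
          ∀ w : HeightOneSpectrum (𝓞 M), w ∉ R₀ → (p : ℤ) ∣ ordv w (x : M)) ∧
        ∃ F : Finset Mˣ, F.card = j + 1 ∧ 1 ∈ F ∧
          (∀ x ∈ F, ∀ w : HeightOneSpectrum (𝓞 M), w ∉ R₀ → (p : ℤ) ∣ ordv w (x : M)) ∧
          ∀ x ∈ F, ∀ y ∈ F, x ≠ y → ¬ SelD L (above T) P δ R al (x / y) := by
      intro j
      induction j with
      | zero =>
        refine ⟨R₀, al₀, hR₀, hs₀, ?_, {1}, ?_, ?_, ?_, ?_⟩
        · intro x hx w hw
          exact (hx.loc w).1 hw
        · simp
        · simp
        · intro x hx w _
          rw [Finset.mem_singleton] at hx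
          rw [hx, Units.val_one]
          have : ordv w (1 : M) = 0 := by
            unfold ordv
            rw [map_one, WithZero.log_one, neg_zero]
          rw [this]
          exact dvd_zero _
        · intro x hx y hy hxy
          rw [Finset.mem_singleton] at hx hy
          exact absurd (hx.trans hy.symm) hxy
      | succ j ih =>
        obtain ⟨R, al, hR, hpr, hae, F, hF1, hF2, hF3, hF4⟩ := ih
        obtain ⟨R', al', hR', hpr', hb1, x, hx1, hx2⟩ := h1 p k hne L K M m δ hδ hm n
          (fun j => Q j.castSucc) (fun j => U j.castSucc) (by omega) (fun j => hQ _) P T hPT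
          R al hR hpr (by
            obtain ⟨i, x, hx, hx'⟩ := hcon R al hR
            induction i using Fin.lastCases with
            | last =>
              refine ⟨x, ?_, hx'⟩
              rw [hP, hT]
              exact hx
            | cast i => exact absurd (hpr i x hx) hx')
        obtain ⟨G, hG, _, _⟩ := h3 p k L K M δ P T R al hR
        obtain ⟨G', hG', hG's, _⟩ := h3 p k L K M δ P T R' al' hR'
        have h1G' : (1 : Mˣ) ∈ G' := G'.one_mem
        have hxne : x ≠ 1 := by
          rintro rfl
          exact hx2 ((hG' 1).1 h1G')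
        have hxG : x ∈ G := (hG x).2 hx1
        have hxF : x ∉ F := by
          intro hx
          have := hF4 x hx 1 hF2 hxne
          rw [div_one] at this
          exact this hx1
        refine ⟨R', al', hR', hpr', ?_, insert x F, ?_, ?_, ?_, ?_⟩
        · intro y hy w
          exact hae y (hb1 y hy) w
        · rw [Finset.card_insert_of_notMem hxF, hF1]
        · exact Finset.mem_insert_of_mem hF2
        · intro y hy w
          rcases Finset.mem_insert.1 hy with rfl | hy
          · exact hae _ hx1 w
          · exact hF3 y hy w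
        · have aux : ∀ y ∈ F, ¬ SelD L (above T) P δ R' al' (x / y) := by
            intro y hy hs
            by_cases hy1 : y = 1
            · subst hy1
              rw [div_one] at hs
              exact hx2 hs
            · have h7 : x / y ∈ G := (hG _).2 (hb1 _ hs)
              have h8 : (1 : Mˣ) / y ∈ G := by
                have h9 : (1 : Mˣ) / y = x⁻¹ * (x / y) := by
                  rw [one_div, div_eq_mul_inv, inv_mul_cancel_left]
                rw [h9]
                exact G.mul_mem (G.inv_mem hxG) h7
              exact hF4 1 hF2 y hy (Ne.symm hy1) ((hG _).1 h8)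
          intro y hy z hz hyz hs
          rcases Finset.mem_insert.1 hy with h7 | h7
          · rcases Finset.mem_insert.1 hz with h8 | h8
            · exact hyz (h7.trans h8.symm)
            · rw [h7] at hs
              exact aux z h8 hs
          · rcases Finset.mem_insert.1 hz with h8 | h8
            · rw [h8] at hs
              refine aux y h7 ((hG' _).1 ?_)
              have h9 : x / y = (y / x)⁻¹ := (inv_div y x).symm
              rw [h9]
              exact G'.inv_mem ((hG' _).2 hs)
            · exact hF4 y h7 z h8 hyz (hb1 _ hs)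
    obtain ⟨R, al, hR, _, _, F, hF1, _, hF3, hF4⟩ := key N
    obtain ⟨G, hG, hGs, _⟩ := h3 p k L K M δ P T R al hR
    have := hN F hF3 fun x hx y hy hxy hs => hF4 x hx y hy hxy ((hG _).1 (hGs _ hs))
    omega

end Pool.Agent.Helper30.RD
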